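import Mathlib

/-!
Average distance versus radius (MP_bb6995_co).  Definitions used by the
statement (`ecc`, `rad`, `avgDist`, `bag`) and by the proof
(`exo`, `Far`, `Arms`, `Ring`).
-/

namespace Pool.Agent.BagR

open Finset

/-- Eccentricity of a vertex: the largest distance to another vertex. -/
noncomputable def ecc {V : Type*} [Fintype V] (G : SimpleGraph V) (v : V) : ℕ :=
  univ.sup fun u => G.dist v u

/-- Radius: the smallest eccentricity. -/
noncomputable def rad {V : Type*} [Fintype V] (G : SimpleGraph V) : ℕ :=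
  ⨅ v, ecc G v

/-- Average distance: the mean of `d(u,v)` over all (ordered, equivalently
unordered) pairs of distinct vertices. -/
noncomputable def avgDist {V : Type*} [Fintype V] (G : SimpleGraph V) : ℝ :=
  (∑ u, ∑ v, (G.dist u v : ℝ)) /
    ((Fintype.card V : ℝ) * ((Fintype.card V : ℝ) - 1))

/-- The bag `Bag_{p,k}`: the complete graph on `Fin p` in which the edge `01` is
replaced by a path with `k` vertices from `0` to `1`; the `k - 2` internal
vertices of the path are `Fin (k - 2)`. -/
def bag (p k : ℕ) : SimpleGraph (Fin p ⊕ Fin (k - 2)) :=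
  SimpleGraph.fromRel fun a b =>
    match a, b with
    | .inl i, .inl j => k = 2 ∨ ¬ ((i.val = 0 ∧ j.val = 1) ∨ (i.val = 1 ∧ j.val = 0))
    | .inl i, .inr j => (i.val = 0 ∧ j.val = 0) ∨ (i.val = 1 ∧ j.val = k - 3)
    | .inr _, .inl _ => False
    | .inr i, .inr j => j.val = i.val + 1

/-- Twice the sum over unordered pairs of (distance minus one). -/
noncomputable def exo {V : Type*} [Fintype V] (G : SimpleGraph V) : ℕ :=
  ∑ u, ∑ v, (G.dist u v - 1)

/-- There are `r` disjoint pairs of vertices at distance at least `r`. -/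
def Far {V : Type*} (G : SimpleGraph V) (r : ℕ) : Prop :=
  ∃ x y : Fin r → V, Function.Injective (Sum.elim x y) ∧ ∀ i, r ≤ G.dist (x i) (y i)

/-- Two geodesic arms `P` (length `r + s`) and `Q` (length `m`) from `z`, which
differ at all levels above `s`, such that at most `e` vertices of level at least
`e` lie off the arms. -/
structure Arms {V : Type*} [Fintype V] [DecidableEq V] (G : SimpleGraph V) (z : V)
    (r s m e : ℕ) (P Q : ℕ → V) : Prop where
  ecc_le : ∀ v, G.dist z v ≤ r + s
  P0 : P 0 = z
  Q0 : Q 0 = z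
  Pgeo : ∀ a b, a ≤ b → b ≤ r + s → G.dist (P a) (P b) = b - a
  Qgeo : ∀ a b, a ≤ b → b ≤ m → G.dist (Q a) (Q b) = b - a
  ne : ∀ c, s < c → c ≤ m → P c ≠ Q c
  hm : r ≤ m + s + 1
  hm' : m ≤ r + s
  hs : s ≤ e
  ext : ((univ : Finset V).filter fun v => e ≤ G.dist z v ∧
    (∀ c, c ≤ r + s → P c ≠ v) ∧ (∀ c, c ≤ m → Q c ≠ v)).card ≤ e

/-- Levels (distances from `z`) `j < i` with exactly the vertices `p, q`, and
`p', q'`; the vertices at levels in `[j, i]` are split into two sides with no
edge between them. -/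
structure Ring {V : Type*} (G : SimpleGraph V) (z : V) (j i : ℕ) (p q p' q' : V)
    (side : V → Bool) : Prop where
  hji : j < i
  lp : G.dist z p = j
  lq : G.dist z q = j
  lp' : G.dist z p' = i
  lq' : G.dist z q' = i
  clj : ∀ v, G.dist z v = j → v = p ∨ v = q
  cli : ∀ v, G.dist z v = i → v = p' ∨ v = q'
  sp : side p = true
  sq : side q = false
  sp' : side p' = true
  sq' : side q' = false
  adj : ∀ u v, G.Adj u v → j ≤ G.dist z u → G.dist z u ≤ i → j ≤ G.dist z v →
    G.dist z v ≤ i → side u = side v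

end Pool.Agent.BagR
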